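import Pool.Agent.U436.AS.Curve

/-!
# Weil classes on the Jacobians of all Artin-Schreier curves `A (y) = f (x)`

Let `k` be an algebraically closed field, `A ≠ 0` an additive polynomial over `k` (for example `y ^ q - y`, `q` a
power of the characteristic), `m = 2 r + ε + 1 ≥ 2` with `ε ∈ {0, 1}` an integer which is not zero in `k`, and `f` an
ARBITRARY polynomial of degree `m` over `k`. Let `C` be the affine curve `A (y) = f (x)`, and `Q` the variety

  `A (z) = u 1 v 1 + … + u r v r + e ²`   (without the term `e ²` if `ε = 0`, that is, if `m` is odd),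

which does NOT depend on `f`, of dimension `m - 1 = 2 r + ε`. We show: there are a polynomial automorphism `Φ` of the
affine space of dimension `m - 1` (a bijection given by polynomials, with inverse given by polynomials) and a constant
`c` such that

  `(x j, y j) ↦ (Φ (coefficients of ∏ (X - x j)), ∑ y j - c)`

maps `C ^ (m - 1)` onto `Q`, and its fibres are the orbits of the finite group of the pairs of a permutation of the
factors and an `(m - 1)`-tuple of zeros `α j` of `A` with sum zero, which is added to the `y j`. So `C_f ^ (m - 1) / G`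
is the same variety for all `f` of degree `m`. Moreover `u = 0` if and only if
`∏ (X - x j) - f' / (m f m)` has degree less than `r + ε`; this is the critical locus.

Relation to the Tate conjecture (not formalised). Let `k` be an algebraic closure of a finite field, `A = y ^ q - y`.
For a nontrivial character `ψ` of `𝔽_q` the part `H ψ` of `H¹ (C)` has dimension `m - 1`, and
`H_c (Q) ψ = ∧ ^ (m - 1) H ψ`. Let `m` be odd. Over `u ≠ 0` the variety `Q` is a bundle of affine spaces on which
`z` is a coordinate, so this part has no `ψ`-cohomology, and the locus `u = 0` is the disjoint union of the `q` affine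
spaces `z = ζ`, `ζ ∈ 𝔽_q`. So `∧ ^ (m - 1) H ψ` is spanned by the class of the cycle `∑ ψ (ζ) [Z ζ]` on `C ^ (m - 1)`,
`Z ζ` being the preimage of `u = 0, z = ζ`: all Weil classes (the exterior powers of highest degree over the group
ring of `𝔽_q`) on the Jacobian of `C_f` are algebraic, for every `f` of odd degree prime to `p`. If `m` is even, the
same holds for the products of the lines `∧ ^ (m - 1) H ψ (f)` and `∧ ^ (m - 1) H ψ (g) ^ ∨` on the products of the
Jacobians of `C_f` and `C_g`.
-/

set_option autoImplicit false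

namespace Pool.Agent.Results.MP_ee618e_ag.ArtinSchreierWeilClasses

open Pool.Agent.U436 Pool.Agent.U436.AS

theorem result (k : Type) [Field k] [IsAlgClosed k] (A : Polynomial k) (hA : IsAdditive A) (hA0 : A ≠ 0)
    (r ε : ℕ) (hε : ε ≤ 1) (hd : 1 ≤ r + ε) (f : Polynomial k) (hf : f.natDegree = r + ε + r + 1)
    (hm : ((r + ε + r + 1 : ℕ) : k) ≠ 0) :
    ∃ (c : k) (Φ : (Fin (r + ε + r) → k) → Fin r ⊕ Fin r ⊕ Fin ε → k), IsPolyEquiv Φ ∧
      (∀ u : Fin (r + ε + r) → k × k, (∀ j, u j ∈ curve A f) → sumMap Φ c u ∈ quadric A r ε) ∧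
      (∀ w ∈ quadric A r ε, ∃ u : Fin (r + ε + r) → k × k, (∀ j, u j ∈ curve A f) ∧ sumMap Φ c u = w) ∧
      (∀ u u' : Fin (r + ε + r) → k × k, (∀ j, u j ∈ curve A f) → (∀ j, u' j ∈ curve A f) →
        (sumMap Φ c u = sumMap Φ c u' ↔
          ∃ (σ : Equiv.Perm (Fin (r + ε + r))) (α : Fin (r + ε + r) → k), (∀ j, A.eval (α j) = 0) ∧
            ∑ j, α j = 0 ∧ ∀ j, u' j = ((u (σ j)).1, (u (σ j)).2 + α j))) ∧
      (∀ t : Fin (r + ε + r) → k, (∀ j, Φ (NT.cf t) (Sum.inl j) = 0) ↔
        ∀ i : Fin (r + ε + r), r + ε ≤ (i : ℕ) →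
          ((r + ε + r + 1 : ℕ) : k) * f.leadingCoeff * NT.cf t i = f.derivative.coeff i) := by
  obtain ⟨κ, Φ, hΦ, hsum, hzero⟩ := exists_equiv hε hf hm
  obtain ⟨c, hc⟩ := hA.surj hA0 κ
  obtain ⟨Ψ, -, hΨ1, hΨ2⟩ := hΦ.2
  refine ⟨c, Φ, hΦ, fun u hu => sumMap_mem hA hc hsum hu, fun w hw => ?_, fun u u' hu hu' => ?_,
    fun t => hzero _⟩
  · exact sumMap_surj hA hA0 hd hc hsum (fun y => ⟨Ψ y, hΨ2 y⟩) hw
  · exact sumMap_eq_iff hA (Function.LeftInverse.injective hΨ1) hu hu'

end Pool.Agent.Results.MP_ee618e_ag.ArtinSchreierWeilClasses
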