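import Pool.Agent.U270.FT14.Jac14

/-!
# The Tate conjecture for abelian varieties of Fermat type over finite fields of characteristic 1 mod m

Let `k` be a finite field with `q` elements and of characteristic `p`, `m` a divisor of `p - 1`, and `J`
the Jacobian of the Fermat curve `x ^ m + y ^ m + z ^ m = 0` over `k`. The space `H^1(J)` is the sum of
lines `V(x)`, `x = (a, b, c)` a triple of nonzero residues modulo `m` with sum zero (`CurveLine`), on
which the Frobenius acts by the Jacobi sum `J(θ ^ a, θ ^ b)` up to a root of unity (Weil); `θ` is a
multiplicative character of `k` of order `m`. Let `A` be an abelian variety over the algebraic closure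
of `k` whose simple factors are isogenous to factors of `J`, with any multiplicities. The Tate classes
of `A` of codimension `i` are spanned by products of `2 i` eigenvectors in lines `V(x)` such that the
product of the `2 i` Jacobi sums is `q ^ i` times a root of unity. Such a product is, by an algebraic
correspondence, the line of the union of the triples in the cohomology of the Fermat variety of
degree `m` and dimension `6 i - 2` (Shioda).

The theorem: for every `m` there is one positive `l` such that for EVERY finite field `k` of
characteristic 1 modulo `m` and every family of `2 i` triples such that a power of the product of the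
Jacobi sums is a power of `q ^ i`, the character `l s`, `s` the union of the triples, is generated in
degree `l m` by characters whose lines are algebraic already in characteristic zero, provided that
* every prime factor of `m` congruent to 1 modulo 4 sees only squares, or `m` has at most three odd
  prime factors, at most two if `4 ∣ m`, and every prime factor congruent to 1 modulo 4 sees only squares
  or is 5, 13 or 17, for instance `m ≤ 147` different from 87, 116 and 123; then the Tate conjecture holds
  for `A` in all codimensions;
* or `m` is ANY odd number and `i ≤ 2`: for all odd degrees all Tate classes of codimension at most two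
  on `A` are algebraic, whatever the dimension of `A` is.
In both cases the Tate classes in question lift to algebraic classes on the abelian variety of Fermat
type in characteristic zero (the canonical lift; the reduction is ordinary). So the Hodge-Riemann
relations of characteristic zero imply that the intersection form on the primitive numerical classes of
codimension at most two of `A` has the sign predicted by the standard conjecture of Hodge type.

The families of characters with algebraic lines are: the pairs `{a, -a}`, and unions (Shioda, Katsura);
removing a pair; the standard characters (Aoki, Shioda); the Hodge characters with four entries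
(Lefschetz) and the curve products (see `MP_e12fcd_ag.FermatFourfolds`); the modular characters (see
`MP_802513_ag.FermatFactorsOdd` for the reason why their lines are algebraic). (The geometric facts just
described are not formalised.)

The starting result `MP_950c68_ag.FermatJacobians` treats all `k` with `m ∣ q - 1` (any characteristic
prime to `m`), but only finitely many essential degrees `m0` (at most 135). The combinatorial theorems
are `Pool.Agent.N993.mainT` of the starting library (first item) and the new theorem
`Pool.Agent.U270.FT14.main_fourteen` on the Hodge characters with at most fourteen entries of arbitrary
odd degree (see `MP_e12fcd_ag.FermatOddDegreeDimTwelve`). The version over number fields is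
`MP_90d181_ag.FermatTypeOneFrobenius`.
-/

set_option autoImplicit false

namespace Pool.Agent.Results.MP_ee618e_ag.FermatTypeSplit

open Pool.Agent.H916R2 Pool.Agent.N992 Pool.Agent.N993

theorem result (m : ℕ) [NeZero m] :
    ∃ l : ℕ, ∃ _ : NeZero (l * m), ((∀ p : ℕ, p.Prime → p ∣ m → p % 4 ≠ 1) → l = 1) ∧
      ∀ (k : Type) [Field k] [Fintype k] (p : ℕ) [Fact p.Prime] [CharP k p], m ∣ p - 1 →
      ∀ (θ : MulChar k ℂ), orderOf θ = m →
      ∀ L : Multiset (ZMod m × ZMod m × ZMod m), (∀ x ∈ L, CurveLine m x) →
      ∀ i : ℕ, 0 < i → Multiset.card L = 2 * i →
      (MutualSquares m ∨ ThreePrimes m ∨ (m ≤ 147 ∧ m ≠ 87 ∧ m ≠ 116 ∧ m ≠ 123) ∨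
        (Odd m ∧ i ≤ 2)) →
      ∀ e : ℕ, 0 < e →
      ((L.map fun x => jacobiSum (θ ^ x.1.val) (θ ^ x.2.1.val)).prod) ^ e =
        ((Fintype.card k : ℂ) ^ i) ^ e →
      Generated (l * m) (FourBase (l * m))
        ((L.bind fun x => {x.1, x.2.1, x.2.2}).map
          fun a => ((l * a.val : ℕ) : ZMod (l * m))) :=
  Pool.Agent.U270.FT14.generated_of_jacobi m

end Pool.Agent.Results.MP_ee618e_ag.FermatTypeSplit
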