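import Pool.Agent.U173.SL.PairGeo

/-!
# The Tate conjecture for products of abelian varieties over finite fields: slope fields which meet
# pairwise in totally real fields

Let `𝒱` be a class of smooth projective varieties over an algebraic closure of a finite field (for instance
the abelian varieties, or all smooth projective varieties), closed under products, `W` a Weil cohomology
theory with algebraically closed coefficient field and with Frobenius endomorphisms (`FrobSystem`; `X` is
defined over the field with `p ^ Φ.e X` elements). Fix a place `ι` above `p` of the field `ℚ̄` of algebraic
numbers. A *slope field* of `X` is a subfield `L` of `ℚ̄` such that the automorphisms of `ℚ̄` over `L` do not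
change the slopes (the absolute values at `ι`) of the eigenvalues of Frobenius on `H(X)` and of their
conjugates (`HasSlopeField`). For example, for an ordinary abelian variety the reflex field of the CM type
given by the slopes is a slope field, and for any variety each field which is normal over `ℚ` and contains
powers of all Frobenius eigenvalues. There is a smallest slope field (the field of definition of the slope
cocharacter of the Frobenius torus); it is totally real or a CM field, and it is the same for all powers of
the variety.

The variety `X` is *good* (`IsGood`) if the Frobenius eigenvalues are Weil numbers and the generalised
eigenvectors of the Frobenius endomorphisms whose eigenvalues are rational powers of `p` up to roots of unity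
are combinations of classes of cycles. If there are no such eigenvalues in odd degrees (for an ordinary
abelian variety for instance) this is the Tate conjecture for `X` in all codimensions, with semisimplicity.

**Theorem.** Let `K` be a totally real field, and let `X i` (`i ∈ s`, any number of indices) be good
varieties with slope fields `L i` which contain `K`, are normal over `K` **with at most one exception**, and
such that `L i ∩ L j` is totally real **for all pairs** `i ≠ j` (`ArePairwise`). Let `Z` be the product of
the `X i`, with any bracketing, and let `U` be **any** variety with a slope field `M` which contains `K` such
that `L i ∩ M` is totally real for all `i`. Nothing is assumed on the composita of the fields.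

1. `Z` is good, and the compositum of the `L i` is a slope field of `Z`. In particular the Tate conjecture,
   with semisimplicity, is true for `Z` in all codimensions.
2. The Tate conjecture for `Z × U` in codimension `c` is equivalent to the Tate conjecture for `U` in the
   codimensions `c - i`, for all `i ≤ c` such that there is a cycle of codimension `i` on `Z` which is not
   homologically trivial; and similarly with semisimplicity.

So for any number of abelian varieties `A i` (over finite fields, without odd supersingular classes) such
that the slope fields are pairwise different imaginary quadratic extensions of the same totally real field
`K`, or abelian extensions of `ℚ` whose pairwise intersections are totally real (for instance, if `A i` has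
complex multiplication by the field of the `N i`-th roots of unity with the `N i` pairwise coprime), the
Tate conjecture for all varieties `∏ (A i) ^ (n i)` is equivalent to the Tate conjecture for the powers of
each `A i`: take `X i = (A i) ^ (n i)`. With two fields only (`s` has one element) nothing is assumed but
that `L ∩ M` is totally real; this case is `MP_af4e75_ag.SlopeFields`. For three and more factors the
iteration of this case needs that `L i` meets the compositum of the other fields in a totally real field.
This is much stronger than the condition on the pairs: the intersections of two of the fields `ℚ(√-1)`,
`ℚ(√-2)` and `ℚ(√2, √-5)` are `ℚ`, but the second one is contained in the compositum of the two others.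

(For non-normal fields a condition on pairs is not enough, since there are linear relations between the
functions on the Galois group which are invariant under three different subgroups.)

The proof. Let `α i` be an eigenvalue on `H(X i)` and `β` one on `H(U)` such that `β ∏ α i` is a power of
`p` up to a root of unity. Then the functions `f i (g) = 2 log |g α i| - const` on the Galois group are odd
under the complex conjugation `c` (Weil numbers), `f i` is invariant under `H i = Gal(ℚ̄ / L i)`, and
`∑ f i` is invariant under `Gal(ℚ̄ / M)`. For `L i` normal over `K` the average over `H i` (in a finite
quotient) commutes with the translations by the elements of `Gal(ℚ̄ / K)`. It kills `f j` for `j ≠ i`, since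
the average of `f j` is odd and invariant under the group generated by `H i` and `H j`, which contains `c`.
So `f i` is a multiple of the average of the sum, hence invariant under `H i` and `Gal(ℚ̄ / M)`, which
generate a group that contains `c`; so `f i = 0`. All `α i` are supersingular, and the eigenvectors are
products of algebraic classes. The framework is that of the starting library (`H914`, `W534`, `TH121/KT`,
`Y138/TU`).

Starting results for this problem concern abelian varieties of CM type without relations between their
Frobenius eigenvalues, or blocks such that the Galois closure of the fields of each block meets the
compositum of all the others in a totally real field (`OrdinaryIndependentBlocks`). Here the factors are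
arbitrary varieties for which the conjecture is known, with arbitrary relations between the eigenvalues
of each one.
-/

set_option autoImplicit false

open CategoryTheory AlgebraicGeometry

universe u v

namespace Pool.Agent.Results.MP_ee618e_ag.PairwiseSlopeFields

open Pool.Agent.H914 Pool.Agent.W534 Pool.Agent.TH132.A Pool.Agent.U173.SL
  VarClass Obj WeilCohomology

/-- **The Tate conjecture for products of varieties whose slope fields meet pairwise in totally real
fields.** -/
theorem result {k : Type u} [Field k] {𝒱 : VarClass k} {ops : CycleOps 𝒱}
    (W : WeilCohomology.{u, v} ops) [IsAlgClosed W.K] (p : ℕ) [Fact p.Prime] (Φ : FrobSystem W p)
    (ι : AlgebraicClosure ℚ →+* PadicAlgCl p) {I : Type} [DecidableEq I]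
    (K M : IntermediateField ℚ (AlgebraicClosure ℚ))
    (L : I → IntermediateField ℚ (AlgebraicClosure ℚ)) (s : Finset I) (Z U : 𝒱.Obj)
    (hL : ArePairwise K L (s : Set I)) (hZ : IsProductOfGood Φ ι L s Z) :
    (IsGood Φ ι (⨆ i ∈ s, L i) Z ∧ ∀ c, SemisimpleTateIn Φ Z c) ∧
    (K ≤ M → (∀ i ∈ s, MeetInReal (L i) M) → HasSlopeField Φ ι M U → ∀ c,
      (TateIn Φ (Z.prod U) c ↔
        ∀ i ≤ c, (∃ x, Z.IsCyc i x ∧ ¬ HomEq W x 0) → TateIn Φ U (c - i)) ∧
      (SemisimpleTateIn Φ (Z.prod U) c ↔
        ∀ i ≤ c, (∃ x, Z.IsCyc i x ∧ ¬ HomEq W x 0) → SemisimpleTateIn Φ U (c - i))) :=
  ⟨⟨isGood_of_pair hZ hL, fun c => tate_of_good (supersingular_of_pair hZ hL) c⟩,
    fun hKM hM hU c => tate_of_pair hZ hL hKM hM hU c⟩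

end Pool.Agent.Results.MP_ee618e_ag.PairwiseSlopeFields
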