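import Pool.Agent.U436.CP.PFinal

/-!
# Determinant classes on products of different `ℤ/p`-coverings of the line are algebraic, in every homology theory

`T` is a Borel–Moore homology theory with cycle classes on affine varieties over the algebraically closed field `k`:
`T.H X` is, for one fixed `i`, the group `H_{2 i} (X, ℚ_ℓ) (-i)` (étale Borel–Moore homology, the dual of
`H_c ^ {2 i}`; or rigid), and `T.alg X` is the subspace spanned by the classes of the closed subvarieties of dimension
`i`. The structure `IsBorelMoore` lists the known properties which are used: functoriality for automorphisms, closed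
immersions, restrictions to open parts `h ≠ 0` and finite direct images; the exact sequence of the closed part
`h = 0`; homotopy invariance (automorphisms of a trivial line bundle over its base act trivially); the homology
of disjoint unions of affine spaces; the homology of the quotients by finite groups.

Let `A ≠ 0` be additive, `A (y) = y ^ q - y` in the application, and let, for `j < M`,

  `F j (x) = f0 j (x) + ∑ i, f j i (1 / (x - P j i))`

be ANY rational functions, with poles of orders `m 0` at infinity and `m i` at `N j` different points, these orders
(the degrees of the polynomials `f0 j`, `f j i`) being different from zero in `k`. Let `C j` be the curve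
`A (y) = F j (x)` (for `q = p`: after a change of `x`, every ramified `ℤ/p`-covering of the line) and
`d j = m 0 - 1 + ∑ (m i + 1)`; only `∑ d j` is assumed to be even. Let `c j ≠ 0` be multipliers of `A`,
`A (c j * y) = c j * A (y)` (`c j ∈ 𝔽_q` in the application). Let `x` be a class on `∏ C j ^ d j` (the zero set
`ppow`) which is

* invariant under the permutations in each `C j ^ d j` and the translations `y l ↦ y l + α l`, `A (α l) = 0`,
  `∑ c l * α l = 0`, and
* killed by the sum of the translations `y l0 ↦ y l0 + ζ` of one coordinate, `A (ζ) = 0`.

Then `x` is algebraic.

Relation to the Tate conjecture (not formalised): let `A = y ^ q - y`, let `C' j` be the smooth projective model of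
`C j` and `V j ψ` the `ψ`-part of `H¹ (C' j)`, of dimension `d j`, for the characters `ψ ≠ 1` of `𝔽_q`. As every
component of the boundary of `∏ C j ^ d j` in the projective variety `∏ C' j ^ d j` is fixed by one of the groups
`𝔽_q`, the idempotent of the characters which are not trivial in each variable kills the homology of the boundary, so
the restriction to `∏ C j ^ d j` is an isomorphism on its image, also for the algebraic classes. The classes `x` of
the theorem are the elements of `⊕_ψ ⊗_j det V j ψ^{c j}` (`ψ^c (α) = ψ (c α)`). So all these classes on the products
of the `C' j` and of their Jacobians are algebraic: the Weil classes of each Jacobian (one curve, `d` even), and, for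
odd `d j`, the classes which mix two different curves, or two different characters of one curve. When the Frobenius
torus of `∏ J (C' j)` is as large as the polarisations and the determinants allow (by the big monodromy
theorems of Katz this is the case for most `F j`), all Tate classes on all products of powers of these Jacobians are
generated by divisor classes and these classes, so the Tate conjecture is true for all these products.
-/

set_option autoImplicit false

namespace Pool.Agent.Results.MP_ee618e_ag.ProductsOfCovers

open Pool.Agent.U436.AS Pool.Agent.U436.CT Pool.Agent.U436.CP

theorem result (k : Type) [Field k] [IsAlgClosed k] (K : Type) [Field K] [CharZero K] (T : Theory k K)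
    (hT : T.IsBorelMoore) (A : Polynomial k) (hA : IsAdditive A) (hA0 : A ≠ 0) (M : ℕ) (N d : Fin M → ℕ)
    (f0 : Fin M → Polynomial k) (f : (j : Fin M) → Fin (N j) → Polynomial k)
    (P : (j : Fin M) → Fin (N j) → k) (hP : ∀ j, Function.Injective (P j))
    (hm0 : ∀ j, ((f0 j).natDegree : k) ≠ 0) (hm : ∀ j i, ((f j i).natDegree : k) ≠ 0)
    (hd : ∀ j, d j + 1 = (f0 j).natDegree + ∑ i, ((f j i).natDegree + 1)) (he : Even (∑ j, d j))
    (c : Fin M → k) (hc : ∀ j, c j ≠ 0) (hAc : ∀ j y, A.eval (c j * y) = c j * A.eval y) (l0 : LL d)
    (x : T.H (ppow A f0 f P d))
    (h1 : ∀ (σ : (j : Fin M) → Equiv.Perm (Fin (d j))) (α : LL d → k), (∀ l, A.eval (α l) = 0) →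
      ∑ l, c l.1 * α l = 0 → T.aut _ (prho σ α) x = x)
    (h2 : ∑ ζ ∈ zer A, T.aut _ (prho (fun _ => 1) (Pi.single l0 ζ)) x = 0) :
    T.IsAlg (ppow A f0 f P d) x :=
  weil_algebraic_orders hT.laws hA hA0 hP hm0 hm hd he hc hAc l0 x h1 h2

end Pool.Agent.Results.MP_ee618e_ag.ProductsOfCovers
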